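import Pool.Agent.Y753.SH.Stm
import Pool.Agent.H306R2.EPLim

set_option autoImplicit false

/-! Project SH: the diagonal sum of shifted divisor functions (SH-DIAG). -/

namespace Pool.Agent.Y641.SH

open Finset Filter Topology
open Pool.Agent.H306R2 (lc dv dA zR aF lc_nonneg lc_sq_le lc_summable C0 C0_summable C0_nonneg
  inv_prime dvJ_summable dv_sq_le dA_nat dA_apply dv_prime_pow dv_nonneg aF_multipliable
  primes_summable)
open Pool.Agent.Y753.SH

noncomputable section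

/-! ### The coefficients -/

theorem tz_zero (h : ℝ) : tz h 0 = 0 := ArithmeticFunction.map_zero

theorem tz_apply (h : ℝ) {n : ℕ} (hn : n ≠ 0) : tz h n = (n : ℂ) ^ (-((h : ℂ) * Complex.I)) :=
  if_neg hn

theorem tz_one (h : ℝ) : tz h 1 = 1 := by
  rw [tz_apply h one_ne_zero, Nat.cast_one, Complex.one_cpow]

theorem norm_tz (h : ℝ) {n : ℕ} (hn : n ≠ 0) : ‖tz h n‖ = 1 := by
  rw [tz_apply h hn, Complex.norm_natCast_cpow_of_pos (Nat.pos_of_ne_zero hn)]
  simp

theorem tz_mul (h : ℝ) (m n : ℕ) : tz h (m * n) = tz h m * tz h n := by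
  by_cases hm : m = 0
  · subst hm
    rw [zero_mul, tz_zero, zero_mul]
  by_cases hn : n = 0
  · subst hn
    rw [mul_zero, tz_zero, mul_zero]
  rw [tz_apply h (mul_ne_zero hm hn), tz_apply h hm, tz_apply h hn, Nat.cast_mul,
    Complex.natCast_mul_natCast_cpow]

theorem tz_mult (h : ℝ) : (tz h).IsMultiplicative := ⟨tz_one h, fun {m n} _ => tz_mul h m n⟩

theorem conj_tz (h : ℝ) (n : ℕ) : (starRingEnd ℂ) (tz h n) = tz (-h) n := by
  by_cases hn : n = 0
  · subst hn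
    rw [tz_zero, tz_zero, map_zero]
  rw [tz_apply h hn, tz_apply (-h) hn]
  have h0 : (n : ℂ) ≠ 0 := by exact_mod_cast hn
  rw [Complex.cpow_def_of_ne_zero h0, Complex.cpow_def_of_ne_zero h0, ← Complex.exp_conj]
  congr 1
  rw [map_mul, map_neg, map_mul, Complex.conj_I, Complex.conj_ofReal, ← Complex.natCast_log,
    Complex.conj_ofReal]
  push_cast
  ring

theorem continuous_tz (c : ℝ) (n : ℕ) : Continuous fun x : ℝ => tz (c * x) n := by
  by_cases hn : n = 0
  · subst hn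
    simp only [tz_zero]
    exact continuous_const
  simp only [tz_apply _ hn]
  refine Continuous.const_cpow ?_ (Or.inl (by exact_mod_cast hn))
  refine Continuous.neg (Continuous.mul ?_ continuous_const)
  exact Complex.continuous_ofReal.comp (continuous_const.mul continuous_id)

theorem zR_apply {n : ℕ} (hn : n ≠ 0) : zR n = 1 := by
  simp only [zR, ArithmeticFunction.natCoe_apply, ArithmeticFunction.zeta_apply, if_neg hn,
    Nat.cast_one]

theorem norm_tz_le (h : ℝ) (n : ℕ) : ‖tz h n‖ ≤ zR n := by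
  by_cases hn : n = 0
  · subst hn
    rw [tz_zero, norm_zero, ArithmeticFunction.map_zero]
  · rw [norm_tz h hn, zR_apply hn]

section prod

variable {ι : Type} (s : Finset ι)

theorem prod_mult (h : ι → ℝ) : (∏ j ∈ s, tz (h j)).IsMultiplicative := by
  classical
  induction s using Finset.induction_on with
  | empty =>
    rw [prod_empty]
    exact ArithmeticFunction.isMultiplicative_one
  | insert a s ha ih =>
    rw [prod_insert ha]
    exact (tz_mult _).mul ih

theorem prod_norm_le (h : ι → ℝ) (n : ℕ) : ‖(∏ j ∈ s, tz (h j)) n‖ ≤ (zR ^ s.card) n := by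
  classical
  induction s using Finset.induction_on generalizing n with
  | empty =>
    rw [prod_empty, card_empty, pow_zero, ArithmeticFunction.one_apply,
      ArithmeticFunction.one_apply]
    split_ifs <;> simp
  | insert a s ha ih =>
    rw [prod_insert ha, card_insert_of_notMem ha, pow_succ', ArithmeticFunction.mul_apply,
      ArithmeticFunction.mul_apply]
    refine (norm_sum_le _ _).trans (sum_le_sum fun x _ => ?_)
    rw [norm_mul]
    exact mul_le_mul (norm_tz_le _ _) (ih _) (norm_nonneg _)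
      ((norm_nonneg _).trans (norm_tz_le (h a) x.1))

theorem prod_continuous (c : ι → ℝ) (n : ℕ) :
    Continuous fun x : ℝ => (∏ j ∈ s, tz (c j * x)) n := by
  classical
  induction s using Finset.induction_on generalizing n with
  | empty =>
    simp only [prod_empty]
    exact continuous_const
  | insert a s ha ih =>
    simp only [prod_insert ha, ArithmeticFunction.mul_apply]
    exact continuous_finsetSum _ fun x _ => (continuous_tz _ _).mul (ih _)

theorem prod_zero_apply (c : ι → ℝ) (hc : ∀ j ∈ s, c j = 0) (n : ℕ) :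
    (∏ j ∈ s, tz (c j)) n = ((zR ^ s.card) n : ℂ) := by
  classical
  induction s using Finset.induction_on generalizing n with
  | empty =>
    rw [prod_empty, card_empty, pow_zero, ArithmeticFunction.one_apply,
      ArithmeticFunction.one_apply]
    split_ifs <;> simp
  | insert a s ha ih =>
    rw [prod_insert ha, card_insert_of_notMem ha, pow_succ', ArithmeticFunction.mul_apply,
      ArithmeticFunction.mul_apply]
    push_cast
    refine sum_congr rfl fun x _ => ?_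
    rw [ih (fun j hj => hc j (mem_insert_of_mem hj))]
    congr 1
    by_cases hx : x.1 = 0
    · rw [hx, tz_zero, ArithmeticFunction.map_zero, Complex.ofReal_zero]
    · rw [zR_apply hx, tz_apply _ hx, hc a (mem_insert_self a s)]
      simp

theorem prod_prime (h : ι → ℝ) {p : ℕ} (hp : p.Prime) :
    (∏ j ∈ s, tz (h j)) p = ∑ j ∈ s, tz (h j) p := by
  classical
  induction s using Finset.induction_on with
  | empty =>
    rw [prod_empty, sum_empty, ArithmeticFunction.one_apply, if_neg hp.ne_one]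
  | insert a s ha ih =>
    rw [prod_insert ha, sum_insert ha, ArithmeticFunction.mul_apply,
      Nat.sum_divisorsAntidiagonal (fun i j => tz (h a) i * (∏ j ∈ s, tz (h j)) j),
      hp.sum_divisors]
    rw [Nat.div_self hp.pos, Nat.div_one, tz_one, one_mul, ih, (prod_mult s h).map_one, mul_one]

end prod

/-! ### The summand -/

variable {k : ℕ} (a b : Fin k → ℝ)

/-- the summand -/
def Ff (x : ℝ) (n : ℕ) : ℂ :=
  ds x a n * (starRingEnd ℂ) (ds x b n) * (((n : ℝ) ^ (-(1 + 2 * x)) : ℝ) : ℂ)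

theorem ds_mult (x : ℝ) : (ds x a).IsMultiplicative := prod_mult univ _

theorem ds_norm (x : ℝ) (n : ℕ) : ‖ds x a n‖ ≤ dv k n := by
  have h := prod_norm_le (univ : Finset (Fin k)) (fun j => a j * x) n
  rw [card_univ, Fintype.card_fin, ← dA_nat, dA_apply] at h
  exact h

theorem Ff_zero (x : ℝ) : Ff a b x 0 = 0 := by
  unfold Ff
  rw [ArithmeticFunction.map_zero, zero_mul, zero_mul]

theorem Ff_one (x : ℝ) : Ff a b x 1 = 1 := by
  unfold Ff
  rw [(ds_mult a x).map_one, (ds_mult b x).map_one]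
  simp

theorem Ff_mult (x : ℝ) {m n : ℕ} (h : Nat.Coprime m n) :
    Ff a b x (m * n) = Ff a b x m * Ff a b x n := by
  unfold Ff
  rw [(ds_mult a x).map_mul_of_coprime h, (ds_mult b x).map_mul_of_coprime h, map_mul,
    Nat.cast_mul, Real.mul_rpow (Nat.cast_nonneg _) (Nat.cast_nonneg _)]
  push_cast
  ring

theorem Ff_norm (x : ℝ) (n : ℕ) : ‖Ff a b x n‖ ≤ dv k n ^ 2 * (n : ℝ) ^ (-(1 + 2 * x)) := by
  unfold Ff
  rw [norm_mul, norm_mul, RCLike.norm_conj, Complex.norm_real,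
    Real.norm_of_nonneg (Real.rpow_nonneg (Nat.cast_nonneg _) _)]
  have h1 := ds_norm a x n
  have h2 := ds_norm b x n
  refine mul_le_mul_of_nonneg_right ?_ (Real.rpow_nonneg (Nat.cast_nonneg _) _)
  rw [sq]
  exact mul_le_mul h1 h2 (norm_nonneg _) ((norm_nonneg _).trans h1)

theorem Ff_summable {x : ℝ} (hx : 0 < x) : Summable fun n => ‖Ff a b x n‖ := by
  refine Summable.of_nonneg_of_le (fun n => norm_nonneg _) (fun n => ?_)
    (dvJ_summable (k ^ 2) (σ := 2 * x) (by linarith))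
  refine (Ff_norm a b x n).trans ?_
  rw [show -(1 + 2 * x) = -1 - 2 * x by ring]
  refine mul_le_mul_of_nonneg_right ?_ (Real.rpow_nonneg (Nat.cast_nonneg _) _)
  have h1 := dv_sq_le (κ := (k : ℝ)) (Nat.cast_nonneg _) n
  push_cast
  exact h1

theorem Ff_pp {x : ℝ} (hx : 0 ≤ x) {p : ℕ} (hp : p.Prime) (m : ℕ) :
    ‖Ff a b x (p ^ m)‖ ≤ lc ((k : ℝ) ^ 2) m * (1 / (p : ℝ)) ^ m := by
  refine (Ff_norm a b x (p ^ m)).trans ?_
  rw [dv_prime_pow _ hp]
  have h1 : (1 : ℝ) ≤ ((p ^ m : ℕ) : ℝ) := by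
    exact_mod_cast Nat.one_le_pow _ _ hp.pos
  have h2 : ((p ^ m : ℕ) : ℝ) ^ (-(1 + 2 * x)) ≤ (1 / (p : ℝ)) ^ m := by
    calc ((p ^ m : ℕ) : ℝ) ^ (-(1 + 2 * x)) ≤ ((p ^ m : ℕ) : ℝ) ^ (-1 : ℝ) :=
          Real.rpow_le_rpow_of_exponent_le h1 (by linarith)
      _ = (1 / (p : ℝ)) ^ m := by
          rw [Real.rpow_neg_one]
          push_cast
          rw [one_div, inv_pow]
  exact mul_le_mul (lc_sq_le (Nat.cast_nonneg k) m) h2 (Real.rpow_nonneg (Nat.cast_nonneg _) _)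
    (lc_nonneg (by positivity) m)

theorem Ff_tendsto (n : ℕ) : Tendsto (fun x : ℝ => Ff a b x n) (𝓝[>] 0) (𝓝 (Ff a b 0 n)) := by
  by_cases hn : n = 0
  · subst hn
    simp only [Ff_zero]
    exact tendsto_const_nhds
  have h1 : Continuous fun x : ℝ => Ff a b x n := by
    unfold Ff ds
    refine ((prod_continuous univ a n).mul
      (Complex.continuous_conj.comp (prod_continuous univ b n))).mul
      (Complex.continuous_ofReal.comp ?_)
    refine Continuous.rpow continuous_const ?_ fun x => Or.inl (by exact_mod_cast hn)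
    fun_prop
  exact (h1.tendsto 0).mono_left nhdsWithin_le_nhds

/-- the local factor -/
def Ee (x : ℝ) (p : ℕ) : ℂ := ∑' m : ℕ, Ff a b x (p ^ m)

theorem Ff_pp_summable (hk : 1 ≤ k) {x : ℝ} (hx : 0 ≤ x) {p : ℕ} (hp : p.Prime) :
    Summable fun m : ℕ => Ff a b x (p ^ m) := by
  have hk' : (0 : ℝ) < (k : ℝ) ^ 2 := by
    have : (0 : ℝ) < k := by exact_mod_cast hk
    positivity
  have hp' := inv_prime hp
  exact Summable.of_norm_bounded (lc_summable hk' hp'.1 (by linarith [hp'.2]))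
    fun m => Ff_pp a b hx hp m

theorem Ee_expand (hk : 1 ≤ k) {x : ℝ} (hx : 0 ≤ x) {p : ℕ} (hp : p.Prime) :
    ‖Ee a b x p - (1 + Ff a b x p)‖ ≤ C0 k * (1 / (p : ℝ)) ^ 2 := by
  have hk' : (0 : ℝ) < k := by exact_mod_cast hk
  have hp' := inv_prime hp
  have hsum := Ff_pp_summable a b hk hx hp
  have h1 : Ee a b x p - (1 + Ff a b x p) = ∑' m : ℕ, Ff a b x (p ^ (m + 2)) := by
    unfold Ee
    rw [← hsum.sum_add_tsum_nat_add 2]
    simp only [sum_range_succ, sum_range_zero, pow_zero, pow_one, zero_add, Ff_one]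
    ring
  rw [h1]
  unfold C0
  rw [← tsum_mul_right]
  have h2 : Summable fun m : ℕ => lc ((k : ℝ) ^ 2) (m + 2) * (1 / 2 : ℝ) ^ m * (1 / (p : ℝ)) ^ 2 :=
    (C0_summable hk').mul_right _
  refine tsum_of_norm_bounded h2.hasSum fun m => ?_
  refine (Ff_pp a b hx hp (m + 2)).trans ?_
  rw [pow_add, mul_assoc]
  have h3 : (1 / (p : ℝ)) ^ m ≤ (1 / 2) ^ m := pow_le_pow_left₀ hp'.1.le hp'.2 m
  have h4 := lc_nonneg (α := (k : ℝ) ^ 2) (by positivity) (m + 2)
  gcongr

theorem Ee_tendsto (hk : 1 ≤ k) {p : ℕ} (hp : p.Prime) :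
    Tendsto (fun x : ℝ => Ee a b x p) (𝓝[>] 0) (𝓝 (Ee a b 0 p)) := by
  have hk' : (0 : ℝ) < (k : ℝ) ^ 2 := by
    have : (0 : ℝ) < k := by exact_mod_cast hk
    positivity
  have hp' := inv_prime hp
  unfold Ee
  refine tendsto_tsum_of_dominated_convergence
    (bound := fun m => lc ((k : ℝ) ^ 2) m * (1 / (p : ℝ)) ^ m)
    (lc_summable hk' hp'.1 (by linarith [hp'.2])) (fun m => Ff_tendsto a b _) ?_
  filter_upwards [self_mem_nhdsWithin] with x hx m
  exact Ff_pp a b (le_of_lt hx) hp m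

/-! ### The factors of the zeta functions -/

/-- the term `p ^ (-(1 + c x))` -/
def ww (x : ℝ) (i : Fin k × Fin k) (p : ℕ) : ℂ :=
  tz (a i.1 * x) p * (starRingEnd ℂ) (tz (b i.2 * x) p) * (((p : ℝ) ^ (-(1 + 2 * x)) : ℝ) : ℂ)

theorem Ff_prime (x : ℝ) {p : ℕ} (hp : p.Prime) :
    Ff a b x p = ∑ i : Fin k × Fin k, ww a b x i p := by
  unfold Ff ds ww
  rw [prod_prime _ _ hp, prod_prime _ _ hp, map_sum, Finset.sum_mul_sum, Finset.sum_mul,
    Fintype.sum_prod_type]
  refine sum_congr rfl fun i _ => ?_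
  rw [Finset.sum_mul]

theorem ww_norm {x : ℝ} (hx : 0 ≤ x) (i : Fin k × Fin k) {p : ℕ} (hp : p.Prime) :
    ‖ww a b x i p‖ ≤ 1 / (p : ℝ) := by
  unfold ww
  rw [norm_mul, norm_mul, RCLike.norm_conj, norm_tz _ hp.ne_zero, norm_tz _ hp.ne_zero, one_mul,
    one_mul, Complex.norm_real, Real.norm_of_nonneg (Real.rpow_nonneg (Nat.cast_nonneg _) _)]
  have h1 : (1 : ℝ) ≤ (p : ℝ) := by exact_mod_cast hp.one_le
  calc (p : ℝ) ^ (-(1 + 2 * x)) ≤ (p : ℝ) ^ (-1 : ℝ) :=
        Real.rpow_le_rpow_of_exponent_le h1 (by linarith)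
    _ = 1 / (p : ℝ) := by rw [Real.rpow_neg_one, one_div]

theorem ww_tendsto (i : Fin k × Fin k) {p : ℕ} (hp : p.Prime) :
    Tendsto (fun x : ℝ => ww a b x i p) (𝓝[>] 0) (𝓝 (ww a b 0 i p)) := by
  have h1 : Continuous fun x : ℝ => ww a b x i p := by
    unfold ww
    refine ((continuous_tz _ _).mul (Complex.continuous_conj.comp (continuous_tz _ _))).mul
      (Complex.continuous_ofReal.comp ?_)
    refine Continuous.rpow continuous_const ?_ fun x => Or.inl (by exact_mod_cast hp.ne_zero)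
    fun_prop
  exact (h1.tendsto 0).mono_left nhdsWithin_le_nhds

/-- the exponent -/
def cc (i : Fin k × Fin k) : ℂ := 2 + Complex.I * ((a i.1 - b i.2 : ℝ) : ℂ)

theorem cc_re (i : Fin k × Fin k) : (cc a b i).re = 2 := by
  unfold cc
  simp

theorem cc_ne (i : Fin k × Fin k) : cc a b i ≠ 0 := by
  intro h
  have h1 := cc_re a b i
  rw [h] at h1
  norm_num at h1

theorem ww_eq (x : ℝ) (i : Fin k × Fin k) {p : ℕ} (hp : p.Prime) :
    ww a b x i p = (p : ℂ) ^ (-(1 + cc a b i * x)) := by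
  have h0 : (p : ℂ) ≠ 0 := by exact_mod_cast hp.ne_zero
  unfold ww cc
  rw [conj_tz, tz_apply _ hp.ne_zero, tz_apply _ hp.ne_zero,
    Complex.ofReal_cpow (Nat.cast_nonneg p), Complex.ofReal_natCast, ← Complex.cpow_add _ _ h0,
    ← Complex.cpow_add _ _ h0]
  congr 1
  push_cast
  ring

theorem zeta_hasProd {x : ℝ} (hx : 0 < x) (i : Fin k × Fin k) :
    HasProd (fun p : Nat.Primes => (1 - ww a b x i p)⁻¹) (riemannZeta (1 + cc a b i * x)) := by
  have h1 : 1 < (1 + cc a b i * x).re := by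
    rw [Complex.add_re, Complex.one_re, Complex.re_mul_ofReal, cc_re]
    linarith
  refine (riemannZeta_eulerProduct_hasProd h1).congr_fun ?_
  intro p
  rw [ww_eq a b x i p.2]

theorem zeta_lim (i : Fin k × Fin k) : Tendsto (fun x : ℝ => ((2 * x : ℝ) : ℂ) *
    riemannZeta (1 + cc a b i * x)) (𝓝[>] 0)
    (𝓝 (1 + Complex.I * ((a i.1 - b i.2 : ℝ) : ℂ) / 2)⁻¹) := by
  have hc := cc_ne a b i
  have h1 : Tendsto (fun x : ℝ => 1 + cc a b i * x) (𝓝[>] 0) (𝓝[≠] 1) := by
    rw [tendsto_nhdsWithin_iff]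
    constructor
    · have h2 : Continuous fun x : ℝ => 1 + cc a b i * (x : ℂ) := by fun_prop
      have h3 := h2.tendsto 0
      rw [Complex.ofReal_zero, mul_zero, add_zero] at h3
      exact h3.mono_left nhdsWithin_le_nhds
    · filter_upwards [self_mem_nhdsWithin] with x hx
      have hx' : (x : ℂ) ≠ 0 := by exact_mod_cast (ne_of_gt hx)
      intro h
      have h3 : 1 + cc a b i * (x : ℂ) = 1 := h
      have h4 : cc a b i * (x : ℂ) = 0 := by linear_combination h3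
      exact (mul_ne_zero hc hx') h4
  have h2 := (riemannZeta_residue_one.comp h1).const_mul (2 / cc a b i)
  have e1 : (1 + Complex.I * ((a i.1 - b i.2 : ℝ) : ℂ) / 2)⁻¹ = 2 / cc a b i * 1 := by
    have e2 : 1 + Complex.I * ((a i.1 - b i.2 : ℝ) : ℂ) / 2 = cc a b i / 2 := by
      unfold cc
      ring
    rw [mul_one, e2, inv_div]
  rw [e1]
  refine h2.congr fun x => ?_
  show 2 / cc a b i * ((1 + cc a b i * (x : ℂ) - 1) * riemannZeta (1 + cc a b i * x)) = _
  push_cast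
  field_simp
  ring

/-! ### The correction factor -/

theorem prod_est {ι : Type} (s : Finset ι) (w : ι → ℂ) {ε : ℝ} (h0 : 0 ≤ ε) (h1 : ε ≤ 1)
    (hw : ∀ i ∈ s, ‖w i‖ ≤ ε) :
    ‖∏ i ∈ s, (1 - w i) - (1 - ∑ i ∈ s, w i)‖ ≤ 4 ^ s.card * ε ^ 2 := by
  classical
  induction s using Finset.induction_on with
  | empty => simp [sq_nonneg]
  | insert i s hi ih =>
    have ih' := ih fun j hj => hw j (mem_insert_of_mem hj)
    have hwi := hw i (mem_insert_self i s)
    have hS : ‖∑ j ∈ s, w j‖ ≤ s.card * ε := by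
      refine (norm_sum_le _ _).trans ?_
      rw [← nsmul_eq_mul]
      exact sum_le_card_nsmul _ _ _ fun j hj => hw j (mem_insert_of_mem hj)
    rw [prod_insert hi, sum_insert hi, card_insert_of_notMem hi]
    set R := ∏ j ∈ s, (1 - w j) - (1 - ∑ j ∈ s, w j) with hR
    have e : (1 - w i) * ∏ j ∈ s, (1 - w j) - (1 - (w i + ∑ j ∈ s, w j)) =
        R + (w i * ∑ j ∈ s, w j - w i * R) := by
      rw [hR]
      ring
    rw [e]
    have h4 : ‖w i * ∑ j ∈ s, w j‖ ≤ ε * (s.card * ε) := by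
      rw [norm_mul]
      exact mul_le_mul hwi hS (norm_nonneg _) h0
    have h5 : ‖w i * R‖ ≤ 1 * (4 ^ s.card * ε ^ 2) := by
      rw [norm_mul]
      exact mul_le_mul (hwi.trans h1) ih' (norm_nonneg _) zero_le_one
    have h6 : (s.card : ℝ) ≤ 4 ^ s.card := by
      exact_mod_cast (Nat.lt_pow_self (by norm_num : 1 < 4)).le
    have h7 : 0 ≤ ε ^ 2 := sq_nonneg ε
    have h8 : (s.card : ℝ) * ε ^ 2 ≤ 4 ^ s.card * ε ^ 2 := mul_le_mul_of_nonneg_right h6 h7
    have h9 : 0 ≤ (4 : ℝ) ^ s.card * ε ^ 2 := by positivity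
    calc ‖R + (w i * ∑ j ∈ s, w j - w i * R)‖
        ≤ ‖R‖ + (‖w i * ∑ j ∈ s, w j‖ + ‖w i * R‖) :=
          (norm_add_le _ _).trans (by gcongr; exact norm_sub_le _ _)
      _ ≤ 4 ^ s.card * ε ^ 2 + (ε * (s.card * ε) + 1 * (4 ^ s.card * ε ^ 2)) := by gcongr
      _ ≤ 4 ^ (s.card + 1) * ε ^ 2 := by
          have q1 : (4 : ℝ) ^ (s.card + 1) * ε ^ 2 = 4 * (4 ^ s.card * ε ^ 2) := by ring
          have q2 : ε * (s.card * ε) = s.card * ε ^ 2 := by ring
          rw [q1, q2]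
          linarith

/-- the correction factor -/
def gg (x : ℝ) (p : ℕ) : ℂ := Ee a b x p * ∏ i : Fin k × Fin k, (1 - ww a b x i p)

/-- a constant -/
def CC (k : ℕ) : ℝ := (k : ℝ) ^ 4 + (k : ℝ) ^ 2 * 4 ^ (k * k) + 4 ^ (k * k) +
  C0 k * (1 + (k : ℝ) ^ 2 + 4 ^ (k * k))

theorem gg_bound (hk : 1 ≤ k) {x : ℝ} (hx : 0 ≤ x) {p : ℕ} (hp : p.Prime) :
    ‖gg a b x p - 1‖ ≤ CC k * (1 / (p : ℝ)) ^ 2 := by
  have hk' : (0 : ℝ) < k := by exact_mod_cast hk
  have hp' := inv_prime hp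
  set ε : ℝ := 1 / (p : ℝ) with hε
  have h0 : 0 ≤ ε := hp'.1.le
  have h1 : ε ≤ 1 := by linarith [hp'.2]
  have hE := Ee_expand a b hk hx hp
  have hP := prod_est (univ : Finset (Fin k × Fin k)) (fun i => ww a b x i p) h0 h1
    (fun i _ => ww_norm a b hx i hp)
  rw [← Ff_prime a b x hp, card_univ, Fintype.card_prod, Fintype.card_fin] at hP
  have hF : ‖Ff a b x p‖ ≤ (k : ℝ) ^ 2 * ε := by
    rw [Ff_prime a b x hp]
    refine (norm_sum_le _ _).trans ?_
    refine (sum_le_card_nsmul _ _ ε fun i _ => ww_norm a b hx i hp).trans ?_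
    rw [card_univ, Fintype.card_prod, Fintype.card_fin, nsmul_eq_mul]
    push_cast
    rw [sq]
  set u := Ff a b x p with hu
  set R := Ee a b x p - (1 + u) with hR
  set R' := ∏ i : Fin k × Fin k, (1 - ww a b x i p) - (1 - u) with hR'
  have e : gg a b x p - 1 = -(u * u) + u * R' + R' + R * (1 - u + R') := by
    unfold gg
    have e1 : Ee a b x p = 1 + u + R := by rw [hR]; ring
    have e2 : ∏ i : Fin k × Fin k, (1 - ww a b x i p) = 1 - u + R' := by rw [hR']; ring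
    rw [e1, e2]
    ring
  rw [e]
  have hC0 := C0_nonneg hk'
  have hε2 : ε ^ 2 ≤ 1 := pow_le_one₀ h0 h1
  have hR'1 : ‖R'‖ ≤ 4 ^ (k * k) := by
    refine hP.trans ?_
    have : (4 : ℝ) ^ (k * k) * ε ^ 2 ≤ 4 ^ (k * k) * 1 := by gcongr
    linarith
  have hu1 : ‖u‖ ≤ (k : ℝ) ^ 2 := by
    refine hF.trans ?_
    have : (k : ℝ) ^ 2 * ε ≤ (k : ℝ) ^ 2 * 1 := by gcongr
    linarith
  have b1 : ‖-(u * u)‖ ≤ (k : ℝ) ^ 4 * ε ^ 2 := by
    rw [norm_neg, norm_mul]
    calc ‖u‖ * ‖u‖ ≤ ((k : ℝ) ^ 2 * ε) * ((k : ℝ) ^ 2 * ε) :=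
          mul_le_mul hF hF (norm_nonneg _) (by positivity)
      _ = (k : ℝ) ^ 4 * ε ^ 2 := by ring
  have b2 : ‖u * R'‖ ≤ (k : ℝ) ^ 2 * (4 ^ (k * k) * ε ^ 2) := by
    rw [norm_mul]
    exact mul_le_mul hu1 hP (norm_nonneg _) (by positivity)
  have b3 : ‖1 - u + R'‖ ≤ 1 + (k : ℝ) ^ 2 + 4 ^ (k * k) := by
    calc ‖1 - u + R'‖ ≤ ‖1 - u‖ + ‖R'‖ := norm_add_le _ _
      _ ≤ (‖(1 : ℂ)‖ + ‖u‖) + ‖R'‖ := by gcongr; exact norm_sub_le _ _
      _ ≤ (1 + (k : ℝ) ^ 2) + 4 ^ (k * k) := by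
          rw [norm_one]
          gcongr
  have b4 : ‖R * (1 - u + R')‖ ≤ (C0 k * ε ^ 2) * (1 + (k : ℝ) ^ 2 + 4 ^ (k * k)) := by
    rw [norm_mul]
    exact mul_le_mul hE b3 (norm_nonneg _) (by positivity)
  calc ‖-(u * u) + u * R' + R' + R * (1 - u + R')‖
      ≤ ‖-(u * u)‖ + ‖u * R'‖ + ‖R'‖ + ‖R * (1 - u + R')‖ := by
        refine (norm_add_le _ _).trans ?_
        gcongr
        refine (norm_add_le _ _).trans ?_
        gcongr
        exact norm_add_le _ _
    _ ≤ (k : ℝ) ^ 4 * ε ^ 2 + (k : ℝ) ^ 2 * (4 ^ (k * k) * ε ^ 2) + 4 ^ (k * k) * ε ^ 2 +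
        (C0 k * ε ^ 2) * (1 + (k : ℝ) ^ 2 + 4 ^ (k * k)) := by gcongr
    _ = CC k * ε ^ 2 := by
        unfold CC
        ring

theorem gg_tendsto (hk : 1 ≤ k) {p : ℕ} (hp : p.Prime) :
    Tendsto (fun x : ℝ => gg a b x p) (𝓝[>] 0) (𝓝 (gg a b 0 p)) := by
  unfold gg
  refine (Ee_tendsto a b hk hp).mul (tendsto_finsetProd _ fun i _ => ?_)
  exact (ww_tendsto a b i hp).const_sub 1

theorem gg_multipliable (hk : 1 ≤ k) {x : ℝ} (hx : 0 ≤ x) :
    Multipliable fun p : Nat.Primes => gg a b x p := by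
  have h1 : Multipliable fun p : Nat.Primes => (1 + (gg a b x p - 1)) := by
    apply multipliable_one_add_of_summable
    refine Summable.of_nonneg_of_le (fun p => norm_nonneg _) (fun p => ?_)
      (primes_summable.mul_left (CC k))
    exact gg_bound a b hk hx p.2
  refine h1.congr fun p => ?_
  ring

theorem gg_tprod_tendsto (hk : 1 ≤ k) :
    Tendsto (fun x : ℝ => ∏' p : Nat.Primes, gg a b x p) (𝓝[>] 0)
      (𝓝 (∏' p : Nat.Primes, gg a b 0 p)) := by
  have h1 := tendsto_tprod_one_add_of_dominated_convergence (𝓕 := 𝓝[>] (0 : ℝ))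
    (f := fun (x : ℝ) (p : Nat.Primes) => gg a b x p - 1)
    (g := fun p : Nat.Primes => gg a b 0 p - 1)
    (bound := fun p : Nat.Primes => CC k * (1 / ((p : ℕ) : ℝ)) ^ 2)
    (primes_summable.mul_left (CC k)) (fun p => (gg_tendsto a b hk p.2).sub_const 1) (by
      filter_upwards [self_mem_nhdsWithin] with x hx p
      exact gg_bound a b hk (le_of_lt hx) p.2)
  have e1 : ∀ x : ℝ, (∏' p : Nat.Primes, (1 + (gg a b x p - 1))) =
      ∏' p : Nat.Primes, gg a b x p := fun x => tprod_congr fun p => by ring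
  simp only [e1] at h1
  exact h1

/-! ### The Euler product -/

theorem main_eq (hk : 1 ≤ k) {x : ℝ} (hx : 0 < x) : ∑' n, Ff a b x n =
    (∏' p : Nat.Primes, gg a b x p) * ∏ i : Fin k × Fin k, riemannZeta (1 + cc a b i * x) := by
  have h1 : HasProd (fun p : Nat.Primes => Ee a b x p) (∑' n, Ff a b x n) :=
    EulerProduct.eulerProduct_hasProd (Ff_one a b x) (fun {m n} h => Ff_mult a b x h)
      (Ff_summable a b hx) (Ff_zero a b x)
  have h2 := (gg_multipliable a b hk hx.le).hasProd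
  have h3 : HasProd (fun p : Nat.Primes => ∏ i : Fin k × Fin k, (1 - ww a b x i p)⁻¹)
      (∏ i : Fin k × Fin k, riemannZeta (1 + cc a b i * x)) :=
    hasProd_prod fun i _ => zeta_hasProd a b hx i
  refine HasProd.unique h1 ((h2.mul h3).congr_fun fun p => ?_)
  unfold gg
  rw [mul_assoc, ← prod_mul_distrib]
  have h4 : ∏ i : Fin k × Fin k, (1 - ww a b x i p) * (1 - ww a b x i p)⁻¹ = 1 := by
    apply prod_eq_one
    intro i _
    apply mul_inv_cancel₀
    intro h5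
    have h6 := ww_norm a b hx.le i p.2
    have h7 := (inv_prime p.2).2
    have h8 : ww a b x i p = 1 := (sub_eq_zero.1 h5).symm
    rw [h8, norm_one] at h6
    linarith
  rw [h4, mul_one]

theorem gg_zero (_hk : 1 ≤ k) {p : ℕ} (hp : p.Prime) : gg a b 0 p =
    (((1 - 1 / (p : ℝ)) ^ ((k : ℝ) ^ 2) * ∑' m : ℕ, lc k m ^ 2 * (1 / (p : ℝ)) ^ m : ℝ) : ℂ) := by
  have hw : ∀ i : Fin k × Fin k, ww a b 0 i p = ((1 / (p : ℝ) : ℝ) : ℂ) := by
    intro i
    unfold ww
    rw [mul_zero, mul_zero, tz_apply _ hp.ne_zero, Complex.ofReal_zero, zero_mul, neg_zero,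
      Complex.cpow_zero, map_one, mul_zero, add_zero, Real.rpow_neg_one, one_div, one_mul, one_mul]
  have hd : ∀ (c : Fin k → ℝ) (n : ℕ), ds 0 c n = (dv k n : ℂ) := by
    intro c n
    unfold ds
    rw [prod_zero_apply univ _ (fun j _ => mul_zero _) n, card_univ, Fintype.card_fin, ← dA_nat,
      dA_apply]
  have hF : ∀ m : ℕ, Ff a b 0 (p ^ m) = ((lc k m ^ 2 * (1 / (p : ℝ)) ^ m : ℝ) : ℂ) := by
    intro m
    unfold Ff
    rw [hd, hd, Complex.conj_ofReal, dv_prime_pow _ hp, mul_zero, add_zero, Real.rpow_neg_one]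
    push_cast
    rw [one_div, inv_pow]
    ring
  have hE : Ee a b 0 p = ((∑' m : ℕ, lc k m ^ 2 * (1 / (p : ℝ)) ^ m : ℝ) : ℂ) := by
    unfold Ee
    simp only [hF]
    rw [Complex.ofReal_tsum]
  unfold gg
  rw [hE]
  simp only [hw]
  rw [prod_const, card_univ, Fintype.card_prod, Fintype.card_fin]
  have h1 : (1 - 1 / (p : ℝ)) ^ ((k : ℝ) ^ 2) = (1 - 1 / (p : ℝ)) ^ (k * k) := by
    have h2 : ((k : ℝ) ^ 2) = ((k * k : ℕ) : ℝ) := by
      push_cast
      ring
    rw [h2, Real.rpow_natCast]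
  rw [h1]
  push_cast
  ring

theorem gg_tprod_zero (hk : 1 ≤ k) : ∏' p : Nat.Primes, gg a b 0 p = (aF k : ℂ) := by
  have hk' : (0 : ℝ) < k := by exact_mod_cast hk
  have h1 := (aF_multipliable hk').hasProd
  have h2 := h1.map (Complex.ofRealHom : ℝ →+* ℂ) Complex.continuous_ofReal
  refine (h2.congr_fun ?_).tprod_eq
  intro p
  rw [gg_zero a b hk p.2]
  rfl

/-- **DIAG** -/
theorem done : S_DIAG := by
  intro k hk a b
  have h1 : Tendsto (fun x : ℝ => ∏ i : Fin k × Fin k,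
      (((2 * x : ℝ) : ℂ) * riemannZeta (1 + cc a b i * x))) (𝓝[>] 0)
      (𝓝 (∏ i : Fin k × Fin k, (1 + Complex.I * ((a i.1 - b i.2 : ℝ) : ℂ) / 2)⁻¹)) :=
    tendsto_finsetProd _ fun i _ => zeta_lim a b i
  have h2 := (gg_tprod_tendsto a b hk).mul h1
  rw [gg_tprod_zero a b hk, Fintype.prod_prod_type] at h2
  refine h2.congr' ?_
  filter_upwards [self_mem_nhdsWithin] with x hx
  have h3 := main_eq a b hk hx
  unfold Ff at h3
  rw [h3, prod_mul_distrib, prod_const, card_univ, Fintype.card_prod, Fintype.card_fin]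
  push_cast
  ring

end

end Pool.Agent.Y641.SH
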