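import Pool.Agent.Y522.Stm

/-!
# Project SH: functions with non-zero differential are coordinates, locally flat subsets are
manifolds
-/

set_option autoImplicit false

open Set Filter Topology Metric Function
open scoped Manifold ContDiff

noncomputable section

namespace Pool.Agent.Y641.SH

open Pool.Agent.Y522

/-! ### Charts -/

section charts

variable {n : ℕ} {X : Type*} [TopologicalSpace X] [ChartedSpace (E n) X] [IsManifold (𝓡 n) ∞ X]

/-- the preferred chart as a local diffeomorphism -/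
def chPD (x : X) : PartialDiffeomorph (𝓡 n) (𝓡 n) X (E n) ∞ where
  toPartialEquiv := (chartAt (E n) x).toPartialEquiv
  open_source := (chartAt (E n) x).open_source
  open_target := (chartAt (E n) x).open_target
  contMDiffOn_toFun := contMDiffOn_chart
  contMDiffOn_invFun := contMDiffOn_chart_symm

theorem LD_chart (x : X) : LD n (chartAt (E n) x) x :=
  ⟨chPD x, mem_chart_source (E n) x, fun _ _ => rfl⟩

end charts

/-! ### Linear algebra -/

/-- A non-zero functional is the first coordinate, up to a linear equivalence. -/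
theorem exists_coord {m : ℕ} (l : E (m + 1) →L[ℝ] ℝ) (hl : l ≠ 0) :
    ∃ A : E (m + 1) ≃L[ℝ] E (m + 1), ∀ v, (A v) 0 = l v := by
  have hl' : (l : E (m + 1) →ₗ[ℝ] ℝ) ≠ 0 := by
    intro h
    apply hl
    ext v
    exact congrArg (fun f : E (m + 1) →ₗ[ℝ] ℝ => f v) h
  obtain ⟨v1, hv1⟩ : ∃ v, l v ≠ 0 := by
    by_contra h
    push Not at h
    exact hl (by ext v; exact h v)
  obtain ⟨v0, hv0⟩ : ∃ v, l v = 1 := ⟨(l v1)⁻¹ • v1, by
    rw [map_smul, smul_eq_mul, inv_mul_cancel₀ hv1]⟩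
  have hfr : Module.finrank ℝ (LinearMap.ker (l : E (m + 1) →ₗ[ℝ] ℝ)) =
      Module.finrank ℝ (E m) := by
    have h := Module.Dual.finrank_ker_add_one_of_ne_zero (K := ℝ) (V₁ := E (m + 1)) hl'
    rw [finrank_euclideanSpace, Fintype.card_fin] at h ⊢
    omega
  let B : LinearMap.ker (l : E (m + 1) →ₗ[ℝ] ℝ) ≃ₗ[ℝ] E m := LinearEquiv.ofFinrankEq _ _ hfr
  have hk : ∀ v : E (m + 1), v - l v • v0 ∈ LinearMap.ker (l : E (m + 1) →ₗ[ℝ] ℝ) := by
    intro v
    rw [LinearMap.mem_ker]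
    change l (v - l v • v0) = 0
    rw [map_sub, map_smul, hv0]
    simp
  let A : E (m + 1) ≃ₗ[ℝ] E (m + 1) :=
    { toFun := fun v => cn (l v) (B ⟨v - l v • v0, hk v⟩)
      invFun := fun z => (z 0) • v0 + (B.symm (tl z) : E (m + 1))
      map_add' := by
        intro v w
        have e : (⟨v + w - l (v + w) • v0, hk (v + w)⟩ : LinearMap.ker (l : E (m + 1) →ₗ[ℝ] ℝ)) =
            ⟨v - l v • v0, hk v⟩ + ⟨w - l w • v0, hk w⟩ := by
          ext1
          simp only [map_add, Submodule.coe_add]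
          module
        rw [e, map_add, map_add]
        ext i
        refine Fin.cases ?_ (fun i => ?_) i <;> simp
      map_smul' := by
        intro c v
        have e : (⟨c • v - l (c • v) • v0, hk (c • v)⟩ : LinearMap.ker (l : E (m + 1) →ₗ[ℝ] ℝ)) =
            c • ⟨v - l v • v0, hk v⟩ := by
          ext1
          simp only [map_smul, Submodule.coe_smul, smul_eq_mul]
          module
        rw [e, map_smul, map_smul]
        ext i
        refine Fin.cases ?_ (fun i => ?_) i <;> simp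
      left_inv := by
        intro v
        simp
      right_inv := by
        intro z
        have h1 : l (B.symm (tl z) : E (m + 1)) = 0 := (B.symm (tl z)).2
        have h2 : l ((z 0) • v0 + (B.symm (tl z) : E (m + 1))) = z 0 := by
          rw [map_add, map_smul, hv0, h1]
          simp
        have h3 : (⟨(z 0) • v0 + (B.symm (tl z) : E (m + 1)) -
            l ((z 0) • v0 + (B.symm (tl z) : E (m + 1))) • v0, hk _⟩ :
            LinearMap.ker (l : E (m + 1) →ₗ[ℝ] ℝ)) = B.symm (tl z) := by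
          ext1
          simp only [h2]
          module
        simp only
        rw [h3, h2, LinearEquiv.apply_symm_apply, cn_tl] }
  refine ⟨A.toContinuousLinearEquiv, fun v => ?_⟩
  change (cn (l v) (B ⟨v - l v • v0, hk v⟩)) 0 = l v
  simp

theorem stAdapt : StAdapt := by
  intro m X _ _ _ f x hf hd
  obtain ⟨φ, hφ⟩ : ∃ φ, φ = chartAt (E (m + 1)) x := ⟨_, rfl⟩
  have hxs : x ∈ φ.source := by rw [hφ]; exact mem_chart_source _ x
  have hLD : LD (m + 1) φ x := by rw [hφ]; exact LD_chart x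
  obtain ⟨p, hp⟩ : ∃ p, p = φ x := ⟨_, rfl⟩
  obtain ⟨g, hg⟩ : ∃ g : E (m + 1) → ℝ, g = fun z => f (φ.symm z) := ⟨_, rfl⟩
  have hpt : p ∈ φ.target := by rw [hp]; exact φ.map_source hxs
  have hpx : φ.symm p = x := by rw [hp]; exact φ.left_inv hxs
  have hsym : ∀ z ∈ φ.target, ContMDiffAt (𝓡 (m + 1)) (𝓡 (m + 1)) ∞ φ.symm z := by
    intro z hz
    rw [hφ] at hz ⊢
    exact (contMDiffOn_chart_symm z hz).contMDiffAt ((chartAt (E (m + 1)) x).open_target.mem_nhds hz)
  have hgs : ∀ᶠ z in 𝓝 p, ContDiffAt ℝ ∞ g z := by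
    have h1 : Tendsto φ.symm (𝓝 p) (𝓝 x) := by
      have := φ.symm.continuousAt (x := p) hpt
      rw [ContinuousAt, hpx] at this
      exact this
    filter_upwards [h1.eventually hf, φ.open_target.mem_nhds hpt] with z hz hzt
    rw [hg]
    exact contMDiffAt_iff_contDiffAt.1 (hz.comp z (hsym z hzt))
  have hgp : ContDiffAt ℝ ∞ g p := hgs.self_of_nhds
  obtain ⟨l, hl⟩ : ∃ l, l = fderiv ℝ g p := ⟨_, rfl⟩
  have hgd : HasFDerivAt g l p := by
    rw [hl]
    exact (hgp.differentiableAt (by simp)).hasFDerivAt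
  have hgφ : ∀ᶠ y in 𝓝 x, f y = g (φ y) := by
    filter_upwards [φ.open_source.mem_nhds hxs] with y hy
    rw [hg]
    simp only
    rw [φ.left_inv hy]
  have hl0 : l ≠ 0 := by
    intro h0
    apply hd
    have h1 : f =ᶠ[𝓝 x] g ∘ φ := hgφ
    rw [h1.mfderiv_eq]
    have h2 : MDifferentiableAt (𝓡 (m + 1)) 𝓘(ℝ, ℝ) g (φ x) := by
      rw [← hp]
      exact (hgp.differentiableAt (by simp)).mdifferentiableAt
    have h3 : MDifferentiableAt (𝓡 (m + 1)) (𝓡 (m + 1)) φ x :=
      hLD.contMDiffAt.mdifferentiableAt (by simp)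
    rw [mfderiv_comp x h2 h3, mfderiv_eq_fderiv, ← hp, ← hl, h0]
    rfl
  obtain ⟨A, hA⟩ := exists_coord l hl0
  obtain ⟨h, hh⟩ : ∃ h : E (m + 1) → E (m + 1),
      h = fun z => A (z - p) + (g z - g p - l (z - p)) • e0 := ⟨_, rfl⟩
  have hhd : HasFDerivAt h (A : E (m + 1) →L[ℝ] E (m + 1)) p := by
    rw [hh]
    have h1 : HasFDerivAt (fun z : E (m + 1) => z - p) (ContinuousLinearMap.id ℝ _) p :=
      (hasFDerivAt_id p).sub_const p
    have h2 : HasFDerivAt (fun z : E (m + 1) => A (z - p)) (A : E (m + 1) →L[ℝ] E (m + 1)) p := by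
      have := (A : E (m + 1) →L[ℝ] E (m + 1)).hasFDerivAt.comp p h1
      rw [ContinuousLinearMap.comp_id] at this
      exact this
    have h3 : HasFDerivAt (fun z : E (m + 1) => l (z - p)) l p := by
      have := l.hasFDerivAt.comp p h1
      rw [ContinuousLinearMap.comp_id] at this
      exact this
    have h4 : HasFDerivAt (fun z : E (m + 1) => g z - g p - l (z - p)) (l - l) p :=
      (hgd.sub_const (g p)).sub h3
    have h5 := h2.add (h4.smul_const (e0 : E (m + 1)))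
    have h6 : (A : E (m + 1) →L[ℝ] E (m + 1)) + (l - l).smulRight (e0 : E (m + 1)) = A := by
      ext v
      simp
    rw [h6] at h5
    exact h5
  have hhs : ∀ᶠ z in 𝓝 p, ContDiffAt ℝ ∞ h z := by
    filter_upwards [hgs] with z hz
    rw [hh]
    have h1 : ContDiffAt ℝ ∞ (fun z : E (m + 1) => z - p) z :=
      contDiffAt_id.sub contDiffAt_const
    exact (A.contDiff.contDiffAt.comp z h1).add
      (((hz.sub contDiffAt_const).sub (l.contDiff.contDiffAt.comp z h1)).smul contDiffAt_const)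
  have hhLD : LD (m + 1) h p := LD_of_contDiffAt hhs A hhd
  refine ⟨fun y => h (φ y), ?_, ?_, ?_⟩
  · rw [hp] at hhLD
    exact LD.comp_fun hhLD hLD
  · simp only [hh, ← hp, sub_self, map_zero, zero_smul, add_zero]
  · filter_upwards [hgφ] with y hy
    rw [hy, hgφ.self_of_nhds, ← hp, hh]
    simp only [PiLp.add_apply, PiLp.smul_apply, hA, smul_eq_mul]
    have e : (e0 : E (m + 1)) 0 = 1 := by simp [e0]
    rw [e]
    ring

/-! ### Locally flat subsets -/

section level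

variable {m : ℕ} {X : Type} [TopologicalSpace X] [ChartedSpace (E (m + 1)) X] {S : Set X}

/-- the type of the diffeomorphisms (between open subsets) used as charts -/
abbrev PD (m : ℕ) (X : Type) [TopologicalSpace X] [ChartedSpace (E (m + 1)) X] : Type :=
  PartialDiffeomorph (𝓡 (m + 1)) (𝓡 (m + 1)) X (E (m + 1)) ∞

/-- `Φ` flattens `S` -/
def Fl (S : Set X) (Φ : PD m X) : Prop := ∀ y ∈ Φ.source, (y ∈ S ↔ (Φ y) 0 = 0)

theorem flat_PD (hS : LocFlat m S) (s : S) : ∃ Φ : PD m X, (s : X) ∈ Φ.source ∧ Fl S Φ := by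
  obtain ⟨e, he, hev⟩ := hS s s.2
  obtain ⟨Φ, hx, heq⟩ := he
  obtain ⟨u, hu, huo, hxu⟩ := mem_nhds_iff.1 hev
  have hsrc : (restrPD Φ u huo).source = Φ.source ∩ u := by
    change (Φ.toOpenPartialHomeomorph.restrOpen u huo).source = _
    rw [OpenPartialHomeomorph.restrOpen_source]
    rfl
  refine ⟨restrPD Φ u huo, ?_, ?_⟩
  · rw [hsrc]
    exact ⟨hx, hxu⟩
  · intro y hy
    rw [hsrc] at hy
    have h1 : y ∈ S ↔ (e y) 0 = 0 := hu hy.2
    rw [h1, heq hy.1]
    rfl

theorem cont_cn0 : Continuous (fun x : E m => (cn 0 x : E (m + 1))) :=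
  (inc : E m →L[ℝ] E (m + 1)).continuous

theorem pd_cont (Φ : PD m X) : ContinuousOn Φ Φ.source := Φ.contMDiffOn_toFun.continuousOn

theorem pd_cont_symm (Φ : PD m X) : ContinuousOn Φ.invFun Φ.target :=
  Φ.contMDiffOn_invFun.continuousOn

theorem mem_inv {Φ : PD m X} (h : Fl S Φ) {x : E m} (hx : cn 0 x ∈ Φ.target) :
    Φ.invFun (cn 0 x) ∈ S := by
  refine (h (Φ.invFun (cn 0 x)) (Φ.map_target hx)).2 ?_
  have h1 : Φ (Φ.invFun (cn 0 x)) = cn 0 x := Φ.right_inv hx
  rw [h1, cn_zero]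

theorem fl_eq {Φ : PD m X} (h : Fl S Φ) {y : X} (hy : y ∈ Φ.source) (hyS : y ∈ S) :
    cn 0 (tl (Φ y)) = Φ y := by
  have h1 := (h y hy).1 hyS
  conv_rhs => rw [← cn_tl (Φ y)]
  rw [h1]

open Classical in
/-- the chart of `S` -/
def chS (Φ : PD m X) (s : S) (h : Fl S Φ) : OpenPartialHomeomorph S (E m) where
  toFun y := tl (Φ (y : X))
  invFun x := if hx : Φ.invFun (cn 0 x) ∈ S then ⟨Φ.invFun (cn 0 x), hx⟩ else s
  source := {y | (y : X) ∈ Φ.source}
  target := {x | cn 0 x ∈ Φ.target}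
  map_source' := by
    intro y hy
    change cn 0 (tl (Φ (y : X))) ∈ Φ.target
    rw [fl_eq h hy y.2]
    exact Φ.map_source hy
  map_target' := by
    intro x hx
    change ((if hx : Φ.invFun (cn 0 x) ∈ S then (⟨Φ.invFun (cn 0 x), hx⟩ : S) else s : S) : X) ∈
      Φ.source
    rw [dif_pos (mem_inv h hx)]
    exact Φ.map_target hx
  left_inv' := by
    intro y hy
    have e : Φ.invFun (cn 0 (tl (Φ (y : X)))) = y := by
      rw [fl_eq h hy y.2]
      exact Φ.left_inv hy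
    have e2 : Φ.invFun (cn 0 (tl (Φ (y : X)))) ∈ S := by
      rw [e]
      exact y.2
    rw [dif_pos e2]
    exact Subtype.ext e
  right_inv' := by
    intro x hx
    rw [dif_pos (mem_inv h hx)]
    change tl (Φ (Φ.invFun (cn 0 x))) = x
    have h1 : Φ (Φ.invFun (cn 0 x)) = cn 0 x := Φ.right_inv hx
    rw [h1, tl_cn]
  open_source := Φ.open_source.preimage continuous_subtype_val
  open_target := Φ.open_target.preimage cont_cn0
  continuousOn_toFun := by
    refine (tl : E (m + 1) →L[ℝ] E m).continuous.comp_continuousOn ?_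
    exact (pd_cont Φ).comp continuous_subtype_val.continuousOn fun y hy => hy
  continuousOn_invFun := by
    rw [IsInducing.subtypeVal.continuousOn_iff]
    have h1 : ContinuousOn (fun x : E m => Φ.invFun (cn 0 x)) {x | cn 0 x ∈ Φ.target} :=
      (pd_cont_symm Φ).comp cont_cn0.continuousOn fun x hx => hx
    refine h1.congr fun x hx => ?_
    change ((if hx : Φ.invFun (cn 0 x) ∈ S then (⟨Φ.invFun (cn 0 x), hx⟩ : S) else s : S) : X) = _
    rw [dif_pos (mem_inv h hx)]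

theorem chS_symm {Φ : PD m X} {s : S} {h : Fl S Φ} {x : E m} (hx : x ∈ (chS Φ s h).target) :
    (((chS Φ s h).symm x : S) : X) = Φ.invFun (cn 0 x) := by
  classical
  have hx' : cn 0 x ∈ Φ.target := hx
  change ((if hx : Φ.invFun (cn 0 x) ∈ S then (⟨Φ.invFun (cn 0 x), hx⟩ : S) else s : S) : X) = _
  rw [dif_pos (mem_inv h hx')]

theorem cd_cn0 : ContDiff ℝ ∞ (fun x : E m => (cn 0 x : E (m + 1))) :=
  (inc : E m →L[ℝ] E (m + 1)).contDiff

theorem smooth_change (Φ Ψ : PD m X) (s t : S) (h : Fl S Φ) (h' : Fl S Ψ) :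
    ContDiffOn ℝ ∞ ((chS Φ s h).symm ≫ₕ chS Ψ t h') ((chS Φ s h).symm ≫ₕ chS Ψ t h').source := by
  intro x hx
  rw [OpenPartialHomeomorph.trans_source, OpenPartialHomeomorph.symm_source] at hx
  obtain ⟨hx1, hx2⟩ := hx
  have hx1' : cn 0 x ∈ Φ.target := hx1
  have hx2' : (((chS Φ s h).symm x : S) : X) ∈ Ψ.source := hx2
  rw [chS_symm hx1] at hx2'
  have h1 : ContMDiffAt (𝓡 (m + 1)) (𝓡 (m + 1)) ∞ (fun z => Ψ (Φ.invFun z)) (cn 0 x) := by
    have a1 : ContMDiffAt (𝓡 (m + 1)) (𝓡 (m + 1)) ∞ Φ.invFun (cn 0 x) :=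
      (Φ.contMDiffOn_invFun _ hx1').contMDiffAt (Φ.open_target.mem_nhds hx1')
    have a2 : ContMDiffAt (𝓡 (m + 1)) (𝓡 (m + 1)) ∞ Ψ (Φ.invFun (cn 0 x)) :=
      (Ψ.contMDiffOn_toFun _ hx2').contMDiffAt (Ψ.open_source.mem_nhds hx2')
    exact a2.comp _ a1
  have h2 : ContDiffAt ℝ ∞ (fun x : E m => tl (Ψ (Φ.invFun (cn 0 x)))) x := by
    have b1 := contMDiffAt_iff_contDiffAt.1 h1
    exact (tl : E (m + 1) →L[ℝ] E m).contDiff.contDiffAt.comp x
      (b1.comp x (cd_cn0 (m := m)).contDiffAt)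
  refine (h2.congr_of_eventuallyEq ?_).contDiffWithinAt
  filter_upwards [(chS Φ s h).open_target.mem_nhds hx1] with y hy
  change tl (Ψ (((chS Φ s h).symm y : S) : X)) = _
  rw [chS_symm hy]

end level

theorem stLevel : StLevel := by
  intro m X _ _ _ S hS
  choose Φ hΦ1 hΦ2 using fun s : S => flat_PD hS s
  let CS : ChartedSpace (E m) S :=
    { atlas := Set.range fun s : S => chS (Φ s) s (hΦ2 s)
      chartAt := fun s => chS (Φ s) s (hΦ2 s)
      mem_chart_source := fun s => hΦ1 s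
      chart_mem_atlas := fun s => ⟨s, rfl⟩ }
  have hM : IsManifold (𝓡 m) ∞ S := by
    refine isManifold_of_contDiffOn (𝓡 m) ∞ S ?_
    rintro _ _ ⟨s, rfl⟩ ⟨t, rfl⟩
    have h := smooth_change (Φ s) (Φ t) s t (hΦ2 s) (hΦ2 t)
    simpa using h
  have hchart : ∀ s : S, ContMDiffAt (𝓡 m) (𝓡 m) ∞ (chS (Φ s) s (hΦ2 s)) s := by
    intro s
    have h := contMDiffAt_of_mem_maximalAtlas (I := 𝓡 m) (n := ∞) (IsManifold.chart_mem_maximalAtlas (I := 𝓡 m) (n := ∞) s)
      (mem_chart_source (E m) s)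
    exact h
  have hloc : ∀ s : S, (Subtype.val : S → X) =ᶠ[𝓝 s]
      fun y => (Φ s).invFun (cn 0 (chS (Φ s) s (hΦ2 s) y)) := by
    intro s
    filter_upwards [(chS (Φ s) s (hΦ2 s)).open_source.mem_nhds (hΦ1 s)] with y hy
    have h1 := (chS (Φ s) s (hΦ2 s)).left_inv hy
    have h2 := chS_symm ((chS (Φ s) s (hΦ2 s)).map_source hy)
    rw [← h2, h1]
  have hval : ∀ s : S, ContMDiffAt (𝓡 m) (𝓡 (m + 1)) ∞ (Subtype.val : S → X) s := by
    intro s
    refine ContMDiffAt.congr_of_eventuallyEq ?_ (hloc s)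
    have ht : cn 0 (chS (Φ s) s (hΦ2 s) s) ∈ (Φ s).target :=
      (chS (Φ s) s (hΦ2 s)).map_source (hΦ1 s)
    have h1 : ContMDiffAt (𝓡 (m + 1)) (𝓡 (m + 1)) ∞ (Φ s).invFun
        (cn 0 (chS (Φ s) s (hΦ2 s) s)) :=
      ((Φ s).contMDiffOn_invFun _ ht).contMDiffAt ((Φ s).open_target.mem_nhds ht)
    have h2 : ContMDiffAt (𝓡 m) (𝓡 (m + 1)) ∞ (fun x : E m => (cn 0 x : E (m + 1)))
        (chS (Φ s) s (hΦ2 s) s) :=
      contMDiffAt_iff_contDiffAt.2 (cd_cn0 (m := m)).contDiffAt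
    exact h1.comp s (h2.comp s (hchart s))
  refine ⟨CS, hM, hval, fun s => ?_⟩
  -- a smooth left inverse near `s`
  have htl : ContDiff ℝ ∞ (fun z : E (m + 1) => (tl z : E m)) :=
    (tl : E (m + 1) →L[ℝ] E m).contDiff
  have hsym : ContMDiffAt (𝓡 m) (𝓡 m) ∞ (chS (Φ s) s (hΦ2 s)).symm (tl (Φ s (s : X))) :=
    contMDiffAt_symm_of_mem_maximalAtlas (I := 𝓡 m) (n := ∞)
      (IsManifold.chart_mem_maximalAtlas (I := 𝓡 m) (n := ∞) s)
      ((chS (Φ s) s (hΦ2 s)).map_source (hΦ1 s))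
  have hΦs : ContMDiffAt (𝓡 (m + 1)) (𝓡 (m + 1)) ∞ (Φ s) (s : X) :=
    ((Φ s).contMDiffOn_toFun _ (hΦ1 s)).contMDiffAt ((Φ s).open_source.mem_nhds (hΦ1 s))
  have hr : ContMDiffAt (𝓡 (m + 1)) (𝓡 m) ∞
      (fun x : X => (chS (Φ s) s (hΦ2 s)).symm (tl (Φ s x))) (s : X) := by
    have h1 : ContMDiffAt (𝓡 (m + 1)) (𝓡 m) ∞ (fun z : E (m + 1) => (tl z : E m))
        (Φ s (s : X)) := contMDiffAt_iff_contDiffAt.2 htl.contDiffAt
    exact hsym.comp (s : X) (h1.comp (s : X) hΦs)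
  have hid : (fun x : X => (chS (Φ s) s (hΦ2 s)).symm (tl (Φ s x))) ∘ (Subtype.val : S → X)
      =ᶠ[𝓝 s] id := by
    filter_upwards [(chS (Φ s) s (hΦ2 s)).open_source.mem_nhds (hΦ1 s)] with y hy
    exact (chS (Φ s) s (hΦ2 s)).left_inv hy
  have hc := mfderiv_comp s (hr.mdifferentiableAt (by simp)) ((hval s).mdifferentiableAt (by simp))
  rw [hid.mfderiv_eq, mfderiv_id] at hc
  intro v w hvw
  have hv := congrArg (fun L => L v) hc
  have hw := congrArg (fun L => L w) hc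
  simp only [ContinuousLinearMap.coe_comp, Function.comp_apply, hvw] at hv hw
  exact hv.trans hw.symm

end Pool.Agent.Y641.SH
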